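import Pool.Agent.Lib_helper69.HM.B1
import Pool.Agent.Lib_helper69.HM.B2
import Pool.Agent.Lib_helper69.HM.G2
import Pool.Agent.Lib_helper69.HM.P1

open MeasureTheory Finset Filter
open scoped ENNReal

namespace Pool.Agent.HM

/-- sum of the truncated and shifted products over the inner box -/
noncomputable def gsum (L : ℝ) (x : ℤ × ℤ) (k : ℕ) (f : ℤ × ℤ → ℝ) : ℝ :=
  ∑ y ∈ box (k ^ 4 - (x.1.natAbs + x.2.natAbs)),
    (tr L (f y) + L) * (tr L (f (y + x)) + L)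

theorem B3_tr_mono (L : ℝ) : Monotone (tr L) := by
  intro s t h
  unfold tr
  exact max_le_max le_rfl (min_le_min h le_rfl)

theorem B3_tr_lip (L : ℝ) {s t : ℝ} (h : s ≤ t) : tr L t - tr L s ≤ t - s := by
  unfold tr
  rcases le_total s L with h1 | h1 <;> rcases le_total t L with h2 | h2 <;>
    simp only [min_eq_left h1, min_eq_left h2, min_eq_right h1, min_eq_right h2] <;>
    first
    | (rcases le_total (-L) s with h3 | h3 <;> rcases le_total (-L) t with h4 | h4 <;>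
        simp only [max_eq_left h3, max_eq_left h4, max_eq_right h3, max_eq_right h4] <;>
        linarith)
    | (rcases le_total (-L) L with h3 | h3 <;> rcases le_total (-L) t with h4 | h4 <;>
        rcases le_total (-L) s with h5 | h5 <;>
        simp only [max_eq_left h3, max_eq_left h4, max_eq_right h3, max_eq_right h4,
          max_eq_left h5, max_eq_right h5] <;>
        linarith)

theorem B3_tr_le {L : ℝ} (hL : 0 < L) (t : ℝ) : tr L t ≤ L := by
  unfold tr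
  exact max_le (by linarith) (min_le_right _ _)

theorem B3_le_tr (L : ℝ) (t : ℝ) : -L ≤ tr L t := le_max_left _ _

theorem B3_tr_meas (L : ℝ) : Measurable (tr L) := by
  unfold tr
  exact measurable_const.max (measurable_id.min measurable_const)

theorem B3_gsum_meas (L : ℝ) (x : ℤ × ℤ) (k : ℕ) : Measurable (gsum L x k) := by
  unfold gsum
  refine Finset.measurable_sum _ fun y _ => ?_
  exact (((B3_tr_meas L).comp (measurable_pi_apply y)).add_const L).mul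
    (((B3_tr_meas L).comp (measurable_pi_apply (y + x))).add_const L)

theorem B3_gsum_nonneg (L : ℝ) (x : ℤ × ℤ) (k : ℕ) (f : ℤ × ℤ → ℝ) : 0 ≤ gsum L x k f := by
  unfold gsum
  refine Finset.sum_nonneg fun y _ => mul_nonneg ?_ ?_
  · have := B3_le_tr L (f y)
    linarith
  · have := B3_le_tr L (f (y + x))
    linarith

theorem B3_gsum_le {L : ℝ} (hL : 0 < L) (x : ℤ × ℤ) (k : ℕ) (f : ℤ × ℤ → ℝ) :
    gsum L x k f ≤ (box (k ^ 4 - (x.1.natAbs + x.2.natAbs))).card • ((2 * L) * (2 * L)) := by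
  unfold gsum
  refine Finset.sum_le_card_nsmul _ _ _ fun y _ => ?_
  have h1 := B3_le_tr L (f y)
  have h2 := B3_le_tr L (f (y + x))
  have h3 := B3_tr_le hL (f y)
  have h4 := B3_tr_le hL (f (y + x))
  refine mul_le_mul ?_ ?_ ?_ ?_ <;> linarith

theorem B3_gsum_mono (L : ℝ) (x : ℤ × ℤ) (k : ℕ) : Monotone (gsum L x k) := by
  intro f g h
  unfold gsum
  refine Finset.sum_le_sum fun y _ => ?_
  have h1 := B3_le_tr L (f y)
  have h2 := B3_le_tr L (f (y + x))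
  have h3 := B3_le_tr L (g y)
  have h5 := B3_tr_mono L (h y)
  have h6 := B3_tr_mono L (h (y + x))
  refine mul_le_mul ?_ ?_ ?_ ?_ <;> linarith

theorem B3_lin_mono {L : ℝ} (hL : 0 < L) (x : ℤ × ℤ) (k : ℕ) :
    Monotone (fun f : ℤ × ℤ → ℝ =>
      2 * L * ∑ y ∈ box (k ^ 4 - (x.1.natAbs + x.2.natAbs)), (f y + f (y + x)) -
        gsum L x k f) := by
  intro f g h
  simp only
  unfold gsum
  rw [Finset.mul_sum, Finset.mul_sum, ← Finset.sum_sub_distrib, ← Finset.sum_sub_distrib]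
  refine Finset.sum_le_sum fun y _ => ?_
  have h1 := B3_le_tr L (f y)
  have h2 := B3_tr_le hL (f y)
  have h3 := B3_tr_le hL (g (y + x))
  have h3' := B3_le_tr L (g (y + x))
  have h5 := B3_tr_mono L (h y)
  have h6 := B3_tr_mono L (h (y + x))
  have h7 := B3_tr_lip L (h y)
  have h8 := B3_tr_lip L (h (y + x))
  have e : (tr L (g y) + L) * (tr L (g (y + x)) + L) - (tr L (f y) + L) * (tr L (f (y + x)) + L)
      = (tr L (g y) - tr L (f y)) * (tr L (g (y + x)) + L) +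
        (tr L (f y) + L) * (tr L (g (y + x)) - tr L (f (y + x))) := by ring
  have a1 : (tr L (g y) - tr L (f y)) * (tr L (g (y + x)) + L) ≤ (g y - f y) * (2 * L) := by
    refine mul_le_mul h7 (by linarith) (by linarith) ?_
    have := h y
    linarith
  have a2 : (tr L (f y) + L) * (tr L (g (y + x)) - tr L (f (y + x))) ≤
      (2 * L) * (g (y + x) - f (y + x)) := by
    refine mul_le_mul (by linarith) h8 (by linarith) (by linarith)
  nlinarith [e, a1, a2]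

theorem B3_mem_box {n : ℕ} {y : ℤ × ℤ} :
    y ∈ box n ↔ (-(n : ℤ) ≤ y.1 ∧ y.1 ≤ n) ∧ (-(n : ℤ) ≤ y.2 ∧ y.2 ≤ n) := by
  unfold box
  rw [Finset.mem_product, Finset.mem_Icc, Finset.mem_Icc]

theorem B3_mem {x : ℤ × ℤ} {n : ℕ} (hn : x.1.natAbs + x.2.natAbs ≤ n) {y : ℤ × ℤ}
    (hy : y ∈ box (n - (x.1.natAbs + x.2.natAbs))) : y ∈ box n ∧ y + x ∈ box n := by
  rw [B3_mem_box] at hy
  rw [B3_mem_box, B3_mem_box, Prod.fst_add, Prod.snd_add]
  omega

theorem B3_box_mono {n n' : ℕ} (h : n ≤ n') : box n ⊆ box n' := by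
  intro y hy
  rw [B3_mem_box] at hy ⊢
  omega

theorem B3_dep (ρ : ℝ → ℝ) (m : ℝ) (n : ℕ) (f g : ℤ × ℤ → ℝ)
    (h : ∀ y ∈ box (n + 1), f y = g y) :
    wt ρ m zstp (box n) f = wt ρ m zstp (box n) g := by
  refine wt_congr ρ m zstp (box n) (fun y hy => h y (B3_box_mono (Nat.le_succ n) hy)) ?_
  intro p hp
  have := box_nbr (Finset.Subset.refl (box n)) hp
  exact ⟨h _ this.1, h _ this.2⟩

theorem B3_int_congr {ρ : ℝ → ℝ} (hρ : EdgeWeight ρ) (m : ℝ) (n : ℕ) {g : (ℤ × ℤ → ℝ) → ℝ}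
    (hg : Measurable g) (h0 : ∀ f, 0 ≤ g f)
    (hdep : ∀ f f' : ℤ × ℤ → ℝ, (∀ y ∈ box (n + 1), f y = f' y) → g f = g f')
    {ξ η : ℤ × ℤ → ℝ} (h : ∀ y ∈ box (n + 1), ξ y = η y) :
    ∫ f, g f ∂gib (wt ρ m zstp (box n)) (box n) ξ =
      ∫ f, g f ∂gib (wt ρ m zstp (box n)) (box n) η := by
  have hw : Measurable (wt ρ m zstp (box n)) := (nice_wt hρ m zstp (box n)).meas
  rw [integral_eq_lintegral_of_nonneg_ae (Eventually.of_forall h0) hg.aestronglyMeasurable,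
    integral_eq_lintegral_of_nonneg_ae (Eventually.of_forall h0) hg.aestronglyMeasurable,
    lintegral_gib hw _ _ hg.ennreal_ofReal, lintegral_gib hw _ _ hg.ennreal_ofReal]
  have e1 : lm (box n) (wt ρ m zstp (box n)) ξ = lm (box n) (wt ρ m zstp (box n)) η :=
    lm_congr_on (A := box (n + 1)) (B3_dep ρ m n) _ fun y hy _ => h y hy
  have e2 : lm (box n) (fun f => ENNReal.ofReal (g f) * wt ρ m zstp (box n) f) ξ =
      lm (box n) (fun f => ENNReal.ofReal (g f) * wt ρ m zstp (box n) f) η :=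
    lm_congr_on (A := box (n + 1)) (fun f f' hf => by
      rw [hdep f f' hf, B3_dep ρ m n f f' hf]) _ fun y hy _ => h y hy
  rw [e1, e2]

/-- boundary values at most `k` around the box `k ^ 4` have little influence on the average -/
theorem influence {ρ : ℝ → ℝ} (hρ : EdgeWeight ρ) {m : ℝ} (hm : 0 < m) {L : ℝ} (hL : 0 < L)
    (x : ℤ × ℤ) {ε : ℝ} (hε : 0 < ε) :
    ∀ᶠ k : ℕ in atTop, ∀ ξ : ℤ × ℤ → ℝ, (∀ y ∈ box (k ^ 4 + 1), |ξ y| ≤ k) →
      lm (box (k ^ 4)) (wt ρ m zstp (box (k ^ 4))) ξ ≠ 0 →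
      |∫ f, gsum L x k f ∂gib (wt ρ m zstp (box (k ^ 4))) (box (k ^ 4)) ξ -
        ∫ f, gsum L x k f ∂gib (wt ρ m zstp (box (k ^ 4))) (box (k ^ 4)) 0| ≤ ε * k ^ 8 := by
  have hε1 : 0 < ε * m ^ 2 / (8 * L) := by positivity
  have hk1 : ∀ᶠ k : ℕ in atTop, x.1.natAbs + x.2.natAbs + 1 ≤ k := eventually_ge_atTop _
  filter_upwards [ramp hρ hm hε1, hk1] with k hk hk1 ξ hξ hZ
  have hkpos : 0 < k := by omega
  have hkR : (0 : ℝ) < k := by exact_mod_cast hkpos
  have hx4 : x.1.natAbs + x.2.natAbs ≤ k ^ 4 := by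
    have : k ≤ k ^ 4 := Nat.le_self_pow (by norm_num) k
    omega
  set B : Finset (ℤ × ℤ) := box (k ^ 4) with hB
  set w : (ℤ × ℤ → ℝ) → ℝ≥0∞ := wt ρ m zstp B with hwdef
  have hnice : Nice w := nice_wt hρ m zstp B
  have hfin : ∀ ζ : ℤ × ℤ → ℝ, lm B w ζ ≠ ∞ := fun ζ => (lm_wt_lt_top hρ hm zstp B ζ).ne
  have hpos : ∀ c : ℝ, lm B w (fun _ => c) ≠ 0 := fun c => (lm_wt_pos_const hρ m zstp B c).ne'
  set ξ' : ℤ × ℤ → ℝ := fun y => max (-(k : ℝ)) (min (ξ y) k) with hξ'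
  have hξξ : ∀ y ∈ box (k ^ 4 + 1), ξ y = ξ' y := by
    intro y hy
    have := abs_le.1 (hξ y hy)
    rw [hξ']
    simp only
    rw [min_eq_left this.2, max_eq_right this.1]
  have hZ' : lm B w ξ' ≠ 0 := by
    have : lm B w ξ = lm B w ξ' :=
      lm_congr_on (A := box (k ^ 4 + 1)) (B3_dep ρ m (k ^ 4)) _ fun y hy _ => hξξ y hy
    rw [← this]
    exact hZ
  have hgdep : ∀ f f' : ℤ × ℤ → ℝ, (∀ y ∈ box (k ^ 4 + 1), f y = f' y) →
      gsum L x k f = gsum L x k f' := by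
    intro f f' h
    unfold gsum
    refine Finset.sum_congr rfl fun y hy => ?_
    have hm1 := B3_mem hx4 hy
    rw [h y (B3_box_mono (Nat.le_succ _) hm1.1), h (y + x) (B3_box_mono (Nat.le_succ _) hm1.2)]
  have e1 : ∫ f, gsum L x k f ∂gib w B ξ = ∫ f, gsum L x k f ∂gib w B ξ' :=
    B3_int_congr hρ m (k ^ 4) (B3_gsum_meas L x k) (B3_gsum_nonneg L x k) hgdep hξξ
  rw [e1]
  -- integrability
  have hprob : ∀ ζ : ℤ × ℤ → ℝ, lm B w ζ ≠ 0 → IsProbabilityMeasure (gib w B ζ) := fun ζ h =>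
    gib_prob hnice.meas B ζ h (hfin ζ)
  have hgint : ∀ ζ : ℤ × ℤ → ℝ, lm B w ζ ≠ 0 → Integrable (gsum L x k) (gib w B ζ) := by
    intro ζ h
    have := hprob ζ h
    refine Integrable.of_bound (B3_gsum_meas L x k).aestronglyMeasurable
      ((box (k ^ 4 - (x.1.natAbs + x.2.natAbs))).card • ((2 * L) * (2 * L)))
      (Eventually.of_forall fun f => ?_)
    rw [Real.norm_eq_abs, abs_of_nonneg (B3_gsum_nonneg L x k f)]
    exact B3_gsum_le hL x k f
  have hcint : ∀ ζ : ℤ × ℤ → ℝ, lm B w ζ ≠ 0 → ∀ y ∈ B,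
      Integrable (fun f : ℤ × ℤ → ℝ => f y) (gib w B ζ) := fun ζ h y hy =>
    integrable_coord hρ hm zstp B ζ h hy
  have hK := hpos k
  have hK' := hpos (-(k : ℝ))
  have h00 : lm B w 0 ≠ 0 := hpos 0
  -- monotonicity
  have c1 : ∫ f, gsum L x k f ∂gib w B ξ' ≤ ∫ f, gsum L x k f ∂gib w B (fun _ => (k : ℝ)) :=
    holley_real hnice B (fun y => max_le (by linarith) (min_le_right _ _)) hZ' (hfin _) hK
      (hfin _) (B3_gsum_meas L x k) (B3_gsum_mono L x k) (hgint _ hZ') (hgint _ hK)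
  have c2 : ∫ f, gsum L x k f ∂gib w B 0 ≤ ∫ f, gsum L x k f ∂gib w B (fun _ => (k : ℝ)) :=
    holley_real hnice B (fun y => hkR.le) h00 (hfin _) hK
      (hfin _) (B3_gsum_meas L x k) (B3_gsum_mono L x k) (hgint _ h00) (hgint _ hK)
  have c3 : ∫ f, gsum L x k f ∂gib w B (fun _ => (-k : ℝ)) ≤ ∫ f, gsum L x k f ∂gib w B ξ' :=
    holley_real hnice B (fun y => le_max_left _ _) hK' (hfin _) hZ'
      (hfin _) (B3_gsum_meas L x k) (B3_gsum_mono L x k) (hgint _ hK') (hgint _ hZ')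
  have c4 : ∫ f, gsum L x k f ∂gib w B (fun _ => (-k : ℝ)) ≤ ∫ f, gsum L x k f ∂gib w B 0 :=
    holley_real hnice B (fun y => by simp) hK' (hfin _) h00
      (hfin _) (B3_gsum_meas L x k) (B3_gsum_mono L x k) (hgint _ hK') (hgint _ h00)
  -- the linear function
  set D : Finset (ℤ × ℤ) := box (k ^ 4 - (x.1.natAbs + x.2.natAbs)) with hD
  have hDB : ∀ y ∈ D, y ∈ B ∧ y + x ∈ B := fun y hy => B3_mem hx4 hy
  have hsint : ∀ ζ : ℤ × ℤ → ℝ, lm B w ζ ≠ 0 →
      Integrable (fun f : ℤ × ℤ → ℝ => 2 * L * ∑ y ∈ D, (f y + f (y + x))) (gib w B ζ) := by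
    intro ζ h
    refine Integrable.const_mul ?_ _
    exact integrable_finsetSum _ fun y hy =>
      (hcint ζ h y (hDB y hy).1).add (hcint ζ h _ (hDB y hy).2)
  have hlin : ∀ ζ : ℤ × ℤ → ℝ, lm B w ζ ≠ 0 →
      ∫ f, (2 * L * ∑ y ∈ D, (f y + f (y + x)) - gsum L x k f) ∂gib w B ζ =
        2 * L * (∑ y ∈ D, (∫ f, f y ∂gib w B ζ + ∫ f, f (y + x) ∂gib w B ζ)) -
          ∫ f, gsum L x k f ∂gib w B ζ := by
    intro ζ h
    rw [integral_sub (hsint ζ h) (hgint ζ h), integral_const_mul, integral_finsetSum]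
    · congr 2
      refine Finset.sum_congr rfl fun y hy => ?_
      exact integral_add (hcint ζ h y (hDB y hy).1) (hcint ζ h _ (hDB y hy).2)
    · intro y hy
      exact (hcint ζ h y (hDB y hy).1).add (hcint ζ h _ (hDB y hy).2)
  have c5 : ∫ f, (2 * L * ∑ y ∈ D, (f y + f (y + x)) - gsum L x k f)
        ∂gib w B (fun _ => (-k : ℝ)) ≤
      ∫ f, (2 * L * ∑ y ∈ D, (f y + f (y + x)) - gsum L x k f)
        ∂gib w B (fun _ => (k : ℝ)) := by
    refine holley_real (F := fun f => 2 * L * ∑ y ∈ D, (f y + f (y + x)) - gsum L x k f) hnice B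
      (fun y => by simp only; linarith) hK' (hfin _) hK (hfin _) ?_ ?_ ?_ ?_
    · refine Measurable.sub ?_ (B3_gsum_meas L x k)
      refine Measurable.const_mul ?_ _
      exact Finset.measurable_sum _ fun y _ =>
        (measurable_pi_apply y).add (measurable_pi_apply (y + x))
    · exact B3_lin_mono hL x k
    · exact (hsint _ hK').sub (hgint _ hK')
    · exact (hsint _ hK).sub (hgint _ hK)
  rw [hlin _ hK, hlin _ hK'] at c5
  have hneg : ∀ y, ∫ f, f y ∂gib w B (fun _ => (-k : ℝ)) =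
      -∫ f, f y ∂gib w B (fun _ => (k : ℝ)) := by
    intro y
    have h1 : (fun _ => (-k : ℝ) : ℤ × ℤ → ℝ) = -(fun _ => (k : ℝ)) := rfl
    rw [h1, ← gib_map_neg hnice B (fun _ => (k : ℝ)), integral_map, ← integral_neg]
    · rfl
    · exact measurable_neg.aemeasurable
    · exact (measurable_pi_apply y).aestronglyMeasurable
  have hnn : ∀ y ∈ B, 0 ≤ ∫ f, f y ∂gib w B (fun _ => (k : ℝ)) := by
    intro y hy
    have := holley_real (F := fun f => f y) (ξ := fun _ => (-k : ℝ)) (η := fun _ => (k : ℝ))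
      hnice B (fun z => by simp only; linarith) hK' (hfin _) hK
      (hfin _) (measurable_pi_apply y) (fun f g h => h y) (hcint _ hK' y hy) (hcint _ hK y hy)
    rw [hneg y] at this
    linarith
  -- sums
  have s1 : ∑ y ∈ D, ∫ f, f y ∂gib w B (fun _ => (k : ℝ)) ≤
      ∑ y ∈ B, ∫ f, f y ∂gib w B (fun _ => (k : ℝ)) :=
    Finset.sum_le_sum_of_subset_of_nonneg (fun y hy => (hDB y hy).1) fun y hy _ => hnn y hy
  have s2 : ∑ y ∈ D, ∫ f, f (y + x) ∂gib w B (fun _ => (k : ℝ)) ≤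
      ∑ y ∈ B, ∫ f, f y ∂gib w B (fun _ => (k : ℝ)) := by
    have : ∑ y ∈ D, ∫ f, f (y + x) ∂gib w B (fun _ => (k : ℝ)) =
        ∑ y ∈ D.image (fun y => y + x), ∫ f, f y ∂gib w B (fun _ => (k : ℝ)) := by
      rw [Finset.sum_image]
      intro a _ b _ hab
      exact add_right_cancel hab
    rw [this]
    refine Finset.sum_le_sum_of_subset_of_nonneg ?_ fun y hy _ => hnn y hy
    intro y hy
    obtain ⟨z, hz, rfl⟩ := Finset.mem_image.1 hy
    exact (hDB z hz).2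
  have s3 : m ^ 2 * k * ∑ y ∈ B, ∫ f, f y ∂gib w B (fun _ => (k : ℝ)) ≤
      ε * m ^ 2 / (8 * L) * k ^ 9 :=
    avg_bound hρ hm zstp B hkR _ hk
  have s4 : 8 * L * ∑ y ∈ B, ∫ f, f y ∂gib w B (fun _ => (k : ℝ)) ≤ ε * k ^ 8 := by
    have hmk : 0 < m ^ 2 * k := by positivity
    have : m ^ 2 * k * (8 * L * ∑ y ∈ B, ∫ f, f y ∂gib w B (fun _ => (k : ℝ))) ≤
        m ^ 2 * k * (ε * k ^ 8) := by
      calc m ^ 2 * k * (8 * L * ∑ y ∈ B, ∫ f, f y ∂gib w B (fun _ => (k : ℝ)))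
          = 8 * L * (m ^ 2 * k * ∑ y ∈ B, ∫ f, f y ∂gib w B (fun _ => (k : ℝ))) := by ring
        _ ≤ 8 * L * (ε * m ^ 2 / (8 * L) * k ^ 9) :=
            mul_le_mul_of_nonneg_left s3 (by positivity)
        _ = m ^ 2 * k * (ε * k ^ 8) := by
            field_simp
    exact le_of_mul_le_mul_left this hmk
  simp only [hneg] at c5
  rw [Finset.sum_add_distrib, Finset.sum_add_distrib, Finset.sum_neg_distrib,
    Finset.sum_neg_distrib] at c5
  have hb : ∫ f, gsum L x k f ∂gib w B (fun _ => (k : ℝ)) -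
      ∫ f, gsum L x k f ∂gib w B (fun _ => (-k : ℝ)) ≤ ε * k ^ 8 := by
    nlinarith [c5, s1, s2, s4, hL]
  rw [abs_le]
  constructor <;> linarith

end Pool.Agent.HM
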